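import Pool.Agent.W662.CB.Stmts2

set_option autoImplicit false

open MeasureTheory Filter Topology Complex
open scoped InnerProductSpace ENNReal

namespace Pool.Agent.W751.CB2

open Pool.Agent.W662.CB

noncomputable section

variable {H : Type} [NormedAddCommGroup H] [InnerProductSpace ℂ H] [CompleteSpace H]

theorem ae_sub {P : ℝ → Prop} (h : ∀ᵐ x ∂(volume : Measure ℝ), P x) (t : ℝ) :
    ∀ᵐ x ∂(volume : Measure ℝ), P (x - t) :=
  (measurePreserving_sub_right volume t).quasiMeasurePreserving.ae h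

/-- the box function -/
def bx (W : ℝ) : ℝ → ℂ := Set.indicator (Set.Icc 0 W) (fun _ => (1 : ℂ))

theorem bx_in {W w : ℝ} (h0 : 0 ≤ w) (h1 : w ≤ W) : bx W w = 1 := by
  unfold bx; exact Set.indicator_of_mem (Set.mem_Icc.2 ⟨h0, h1⟩) _

theorem bx_out {W w : ℝ} (h : ¬ (0 ≤ w ∧ w ≤ W)) : bx W w = 0 := by
  unfold bx; exact Set.indicator_of_notMem (fun h' => h (Set.mem_Icc.1 h')) _

theorem mulOp_conj (R : ℝ → LR H →L[ℂ] LR H) (hR : ∀ t, IsShift t (R t))
    (hs : ∀ t, star (R t) = R (-t)) (g : ℝ → ℂ) (p' : LR H →L[ℂ] LR H) (hp : IsMulOp g p')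
    (t : ℝ) : IsMulOp (fun w => g (w - t)) (R t * p' * star (R t)) := by
  intro f
  rw [hs t]
  have e : (R t * p' * R (-t)) f = R t (p' (R (-t) f)) := rfl
  rw [e]
  have h1 := hR t (p' (R (-t) f))
  have h2 := ae_sub (hp (R (-t) f)) t
  have h3 := ae_sub (hR (-t) f) t
  filter_upwards [h1, h2, h3] with w h1 h2 h3
  rw [h1, h2, h3]
  congr 2
  ring

theorem mulOp_mul {g h : ℝ → ℂ} {S S' : LR H →L[ℂ] LR H} (hS : IsMulOp g S)
    (hS' : IsMulOp h S') : IsMulOp (fun s => g s * h s) (S * S') := by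
  intro f
  have e : (S * S') f = S (S' f) := rfl
  rw [e]
  filter_upwards [hS (S' f), hS' f] with w h1 h2
  rw [h1, h2, mul_smul]

theorem mulOp_eq {g h : ℝ → ℂ} {S S' : LR H →L[ℂ] LR H} (hS : IsMulOp g S)
    (hS' : IsMulOp h S') (e : ∀ᵐ w ∂(volume : Measure ℝ), g w = h w) : S = S' := by
  ext1 f
  apply Lp.ext
  filter_upwards [hS f, hS' f, e] with w h1 h2 h3
  rw [h1, h2, h3]

theorem mulOp_zero : IsMulOp (fun _ => (0 : ℂ)) (0 : LR H →L[ℂ] LR H) := by
  intro f
  have e : (0 : LR H →L[ℂ] LR H) f = 0 := rfl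
  rw [e]
  filter_upwards [Lp.coeFn_zero H 2 (volume : Measure ℝ)] with w h
  rw [h]; simp

theorem mulOp_add {g h : ℝ → ℂ} {S S' : LR H →L[ℂ] LR H} (hS : IsMulOp g S)
    (hS' : IsMulOp h S') : IsMulOp (fun s => g s + h s) (S + S') := by
  intro f
  have e : (S + S') f = S f + S' f := rfl
  rw [e]
  filter_upwards [hS f, hS' f, Lp.coeFn_add (S f) (S' f)] with w h1 h2 h3
  rw [h3, Pi.add_apply, h1, h2, add_smul]

theorem mulOp_sum (b : ℕ → ℝ → ℂ) (q : ℕ → LR H →L[ℂ] LR H) (h : ∀ j, IsMulOp (b j) (q j))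
    (n : ℕ) : IsMulOp (fun w => ∑ j ∈ Finset.range n, b j w) (∑ j ∈ Finset.range n, q j) := by
  induction n with
  | zero => simpa using (mulOp_zero (H := H))
  | succ n ih =>
    have := mulOp_add ih (h n)
    simpa [Finset.sum_range_succ] using this

theorem ae_grid (W' : ℝ) : ∀ᵐ w ∂(volume : Measure ℝ), ∀ j : ℕ, w ≠ j * W' := by
  rw [ae_all_iff]
  intro j
  have := (Set.countable_singleton ((j : ℝ) * W')).ae_notMem (volume : Measure ℝ)
  filter_upwards [this] with w h
  simpa using h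

theorem sum_bx {W' : ℝ} (hW' : 0 < W') (w : ℝ) (hw : ∀ j : ℕ, w ≠ j * W') (n : ℕ) :
    ∑ j ∈ Finset.range n, bx W' (w - j * W') = bx (n * W') w := by
  induction n with
  | zero =>
    have h0 := hw 0
    simp only [Nat.cast_zero, zero_mul] at h0
    rw [Finset.sum_range_zero, bx_out]
    rintro ⟨h1, h2⟩
    simp only [Nat.cast_zero, zero_mul] at h2
    exact h0 (le_antisymm h2 h1)
  | succ n ih =>
    rw [Finset.sum_range_succ, ih]
    have hn := hw n
    have hnn : (0 : ℝ) ≤ n * W' := by positivity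
    have hc : ((n + 1 : ℕ) : ℝ) * W' = n * W' + W' := by push_cast; ring
    rw [hc]
    rcases lt_or_ge w 0 with h | h
    · rw [bx_out (by intro h'; linarith [h'.1]), bx_out (by intro h'; linarith [h'.1]),
        bx_out (by intro h'; linarith [h'.1]), add_zero]
    rcases lt_or_gt_of_ne hn with h1 | h1
    · rw [bx_in h h1.le, bx_out (by intro h'; linarith [h'.1]), bx_in h (by linarith), add_zero]
    · rcases le_or_gt w (n * W' + W') with h2 | h2
      · rw [bx_out (by intro h'; linarith [h'.2]), bx_in (by linarith) (by linarith),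
          bx_in h h2, zero_add]
      · rw [bx_out (by intro h'; linarith [h'.2]), bx_out (by intro h'; linarith [h'.2]),
          bx_out (by intro h'; linarith [h'.2]), add_zero]

theorem norms (ξ : H) (hξ : ‖ξ‖ = 1) (W : ℝ) (hW : 0 < W) (h2 : Real.exp (2 * Real.pi * W) - 1 ≤ 1)
    (ζ : LR H) (hζ : (ζ : ℝ → H) =ᵐ[volume] Set.indicator (Set.Icc 0 W)
        (fun w : ℝ => (((Real.sqrt W)⁻¹ * Real.exp (Real.pi * w) : ℝ) : ℂ) • ξ)) :
    1 ≤ 2 * ‖ζ‖ ∧ ‖ζ‖ ≤ 2 := by
  have hsW : 0 < Real.sqrt W := Real.sqrt_pos.2 hW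
  have hvol : (volume : Measure ℝ) (Set.Icc 0 W) ≠ ∞ := by
    rw [Real.volume_Icc]; exact ENNReal.ofReal_ne_top
  set g : LR H := indicatorConstLp 2 (measurableSet_Icc : MeasurableSet (Set.Icc (0 : ℝ) W)) hvol
    ((((Real.sqrt W)⁻¹ : ℝ) : ℂ) • ξ) with hg
  have hgn : ‖g‖ = 1 := by
    rw [hg, norm_indicatorConstLp (by norm_num) (by norm_num), norm_smul, hξ, mul_one,
      Complex.norm_real, Real.norm_of_nonneg (by positivity), Measure.real, Real.volume_Icc, sub_zero,
      ENNReal.toReal_ofReal hW.le]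
    have : W ^ (1 / (2 : ℝ≥0∞).toReal) = Real.sqrt W := by
      rw [Real.sqrt_eq_rpow]; norm_num
    rw [this]
    exact inv_mul_cancel₀ hsW.ne'
  have hga : (g : ℝ → H) =ᵐ[volume] Set.indicator (Set.Icc 0 W)
      (fun _ => (((Real.sqrt W)⁻¹ : ℝ) : ℂ) • ξ) := indicatorConstLp_coeFn
  have hpi := Real.pi_pos
  constructor
  · have : ‖g‖ ≤ ‖ζ‖ := by
      apply Lp.norm_le_norm_of_ae_le
      filter_upwards [hζ, hga] with w h1 h3
      rw [h1, h3]
      by_cases hw : w ∈ Set.Icc 0 W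
      · rw [Set.indicator_of_mem hw, Set.indicator_of_mem hw, norm_smul, norm_smul, hξ, mul_one,
          mul_one, Complex.norm_real, Complex.norm_real, Real.norm_of_nonneg (by positivity),
          Real.norm_of_nonneg (by positivity)]
        have : 1 ≤ Real.exp (Real.pi * w) := Real.one_le_exp (mul_nonneg hpi.le hw.1)
        calc (Real.sqrt W)⁻¹ = (Real.sqrt W)⁻¹ * 1 := by ring
          _ ≤ _ := by gcongr
      · rw [Set.indicator_of_notMem hw, Set.indicator_of_notMem hw]
    linarith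
  · have : ‖ζ‖ ≤ 2 * ‖g‖ := by
      apply Lp.norm_le_mul_norm_of_ae_le_mul
      filter_upwards [hζ, hga] with w h1 h3
      rw [h1, h3]
      by_cases hw : w ∈ Set.Icc 0 W
      · rw [Set.indicator_of_mem hw, Set.indicator_of_mem hw, norm_smul, norm_smul, hξ, mul_one,
          mul_one, Complex.norm_real, Complex.norm_real, Real.norm_of_nonneg (by positivity),
          Real.norm_of_nonneg (by positivity)]
        have : Real.exp (Real.pi * w) ≤ 2 := by
          calc Real.exp (Real.pi * w) ≤ Real.exp (2 * Real.pi * W) := by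
                apply Real.exp_le_exp.2
                have h5 := hw.2
                have h6 := hw.1
                nlinarith
            _ ≤ 2 := by linarith
        calc (Real.sqrt W)⁻¹ * Real.exp (Real.pi * w) ≤ (Real.sqrt W)⁻¹ * 2 := by gcongr
          _ = _ := by ring
      · rw [Set.indicator_of_notMem hw, Set.indicator_of_notMem hw]; simp
    linarith

theorem q8 : S_Q8 := by
  intro H _ _ _ ξ hξ R hR hR0 hRadd hRs W W' m hW' hm hWm hexp p p' ζ ζ' hp hp' hζ hζ' q
  have hm1 : (1 : ℝ) ≤ m := by exact_mod_cast hm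
  have hm0 : (0 : ℝ) < m := by linarith
  have hW : 0 < W := by rw [hWm]; positivity
  have hq : ∀ j : ℕ, IsMulOp (fun w => bx W' (w - j * W')) (q j) := fun j =>
    mulOp_conj R hR hRs (bx W') p' hp' (j * W')
  have hgrid := ae_grid W'
  refine ⟨?_, ?_, ?_, ?_, ?_, ?_⟩
  · intro j hj
    refine mulOp_eq (mulOp_mul hp (hq j)) (hq j) ?_
    filter_upwards with w
    have hj' : (j : ℝ) + 1 ≤ m := by exact_mod_cast hj
    by_cases h : 0 ≤ w - j * W' ∧ w - j * W' ≤ W'
    · have h1 : (0 : ℝ) ≤ j * W' := by positivity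
      have h2 : (j : ℝ) * W' + W' ≤ m * W' := by nlinarith
      have h3 := bx_in (W := W) (w := w) (by linarith [h.1]) (by rw [hWm]; linarith [h.2])
      unfold bx at h3 ⊢
      rw [h3, one_mul]
    · rw [bx_out h, mul_zero]
  · intro i j hi hj hij
    refine mulOp_eq (mulOp_mul (hq i) (hq j)) mulOp_zero ?_
    filter_upwards [hgrid] with w hw
    by_cases h1 : 0 ≤ w - i * W' ∧ w - i * W' ≤ W'
    · by_cases h2 : 0 ≤ w - j * W' ∧ w - j * W' ≤ W'
      · exfalso
        rcases lt_or_gt_of_ne hij with h | h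
        · have h3 : (i : ℝ) + 1 ≤ j := by exact_mod_cast h
          have h4 : (i : ℝ) * W' + W' ≤ j * W' := by nlinarith
          exact hw j (by linarith [h1.2, h2.1])
        · have h3 : (j : ℝ) + 1 ≤ i := by exact_mod_cast h
          have h4 : (j : ℝ) * W' + W' ≤ i * W' := by nlinarith
          exact hw i (by linarith [h1.1, h2.2])
      · rw [bx_out h2, mul_zero]
    · rw [bx_out h1, zero_mul]
  · have hs := mulOp_sum _ _ hq m ζ
    have e : (∑ j ∈ Finset.range m, q j) ζ = ∑ j ∈ Finset.range m, q j ζ := by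
      rw [ContinuousLinearMap.sum_apply]
    rw [← e]
    apply Lp.ext
    filter_upwards [hs, hgrid, hζ] with w h1 h2 h3
    rw [h1, sum_bx hW' w h2 m, ← hWm, h3]
    by_cases hw : w ∈ Set.Icc 0 W
    · rw [bx_in hw.1 hw.2, one_smul]
    · rw [Set.indicator_of_notMem hw, smul_zero]
  · intro j hj
    have hs : 0 < Real.sqrt m := Real.sqrt_pos.2 hm0
    have h1 : 1 ≤ Real.exp (Real.pi * (j * W')) := Real.one_le_exp (by positivity)
    have h2 : 2 * Real.sqrt m * ((Real.sqrt m)⁻¹ * Real.exp (Real.pi * (j * W')))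
        = 2 * Real.exp (Real.pi * (j * W')) := by
      field_simp
    rw [h2]; linarith
  · intro j hj
    apply Lp.ext
    have h1 := hq j ζ
    have h2 := hR (j * W') ζ'
    have h3 := ae_sub hζ' (j * W')
    have h4 := Lp.coeFn_smul (((Real.sqrt m)⁻¹ * Real.exp (Real.pi * (j * W')) : ℝ) : ℂ)
      (R (j * W') ζ')
    have hj' : (j : ℝ) + 1 ≤ m := by exact_mod_cast hj
    filter_upwards [h1, h2, h3, h4, hζ] with w h1 h2 h3 h4 h5
    rw [h1, h4, Pi.smul_apply, h2, h3, h5]
    by_cases h : 0 ≤ w - j * W' ∧ w - j * W' ≤ W'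
    · have k1 : (0 : ℝ) ≤ j * W' := by positivity
      have k2 : (j : ℝ) * W' + W' ≤ m * W' := by nlinarith
      rw [bx_in h.1 h.2, one_smul, Set.indicator_of_mem (Set.mem_Icc.2 ⟨by linarith [h.1], by
        rw [hWm]; linarith [h.2]⟩), Set.indicator_of_mem (Set.mem_Icc.2 h), smul_smul,
        ← Complex.ofReal_mul]
      congr 2
      rw [hWm, Real.sqrt_mul hm0.le, mul_inv]
      have e : Real.exp (Real.pi * w) =
          Real.exp (Real.pi * (j * W')) * Real.exp (Real.pi * (w - j * W')) := by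
        rw [← Real.exp_add]; congr 1; ring
      rw [e]; ring
    · rw [bx_out h, Set.indicator_of_notMem (fun h' => h (Set.mem_Icc.1 h')), zero_smul,
        smul_zero]
  · have n1 := norms ξ hξ W hW hexp ζ hζ
    have hle : W' ≤ W := by rw [hWm]; nlinarith
    have hexp' : Real.exp (2 * Real.pi * W') - 1 ≤ 1 := by
      have : Real.exp (2 * Real.pi * W') ≤ Real.exp (2 * Real.pi * W) := by
        apply Real.exp_le_exp.2
        have := Real.pi_pos
        nlinarith
      linarith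
    have n2 := norms ξ hξ W' hW' hexp' ζ' hζ'
    exact ⟨n1.1, n1.2, n2.1, n2.2⟩

end

end Pool.Agent.W751.CB2
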